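import Mathlib

/-!
# Polynomials with few terms
-/

set_option autoImplicit false

namespace Pool.Agent.R855.FP

open Polynomial

variable {K : Type} [Field K] [CharZero K]

omit [CharZero K] in
theorem card_derivative {Q : K[X]} (h0 : Q.coeff 0 ≠ 0) :
    (derivative Q).support.card + 1 ≤ Q.support.card := by
  classical
  have h1 : (derivative Q).support.image Nat.succ ⊆ Q.support.erase 0 := by
    intro n hn
    rw [Finset.mem_image] at hn
    obtain ⟨k, hk, rfl⟩ := hn
    rw [Finset.mem_erase, mem_support_iff]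
    refine ⟨Nat.succ_ne_zero k, fun h => ?_⟩
    rw [mem_support_iff, coeff_derivative] at hk
    apply hk
    rw [show k + 1 = k.succ from rfl, h, zero_mul]
  have h2 := Finset.card_le_card h1
  rw [Finset.card_image_of_injective _ Nat.succ_injective,
    Finset.card_erase_of_mem (mem_support_iff.2 h0)] at h2
  have h3 : 0 < Q.support.card := Finset.card_pos.2 ⟨0, mem_support_iff.2 h0⟩
  omega

/-- A nonzero polynomial with at most `n` terms has no root `1` of multiplicity `n`. -/
theorem eq_zero_of_few (n : ℕ) : ∀ P : K[X], P.support.card ≤ n → (X - 1) ^ n ∣ P → P = 0 := by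
  induction n with
  | zero =>
    intro P hP _
    exact support_eq_empty.1 (Finset.card_eq_zero.1 (Nat.le_zero.1 hP))
  | succ n ih =>
    intro P hP hd
    by_contra hne
    obtain ⟨Q, hQ, hQ0⟩ := exists_eq_pow_rootMultiplicity_mul_and_not_dvd P hne 0
    rw [map_zero, sub_zero] at hQ hQ0
    have hc0 : Q.coeff 0 ≠ 0 := fun h => hQ0 (X_dvd_iff.2 h)
    have hcop : IsCoprime ((X - 1 : K[X]) ^ (n + 1)) (X ^ rootMultiplicity 0 P) := by
      refine IsCoprime.pow ?_
      exact ⟨-1, 1, by ring⟩
    have hd' : (X - 1) ^ (n + 1) ∣ Q := by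
      rw [hQ] at hd
      exact hcop.dvd_of_dvd_mul_left hd
    have hcard : Q.support.card ≤ n + 1 := by
      refine le_trans ?_ hP
      obtain ⟨v, hv⟩ : ∃ v, v = rootMultiplicity 0 P := ⟨_, rfl⟩
      rw [← hv] at hQ
      have h1 : Q.support.image (· + v) ⊆ P.support := by
        intro k hk
        rw [Finset.mem_image] at hk
        obtain ⟨l, hl, rfl⟩ := hk
        rw [mem_support_iff] at hl ⊢
        rw [hQ, mul_comm, coeff_mul_X_pow]
        exact hl
      have h2 := Finset.card_le_card h1
      rwa [Finset.card_image_of_injective _ (add_left_injective v)] at h2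
    have h1 : derivative Q = 0 := by
      refine ih _ (by have := card_derivative hc0; omega) ?_
      obtain ⟨S, hS⟩ := hd'
      rw [hS, derivative_mul, derivative_pow]
      refine dvd_add (Dvd.dvd.mul_right (Dvd.dvd.mul_right ?_ _) _) (Dvd.dvd.mul_right ?_ _)
      · rw [Nat.add_sub_cancel]
        exact Dvd.dvd.mul_left (dvd_refl _) _
      · exact pow_dvd_pow _ (Nat.le_succ n)
    have h2 := derivative_eq_zero.1 h1
    obtain ⟨c, hc⟩ := natDegree_eq_zero.1 h2
    have h3 : Q.eval 1 = 0 := by
      have h4 : (X - 1 : K[X]) ∣ Q := (dvd_pow_self _ (Nat.succ_ne_zero n)).trans hd'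
      obtain ⟨S, hS⟩ := h4
      rw [hS]
      simp
    rw [← hc, eval_C] at h3
    rw [← hc, h3, map_zero, coeff_zero] at hc0
    exact hc0 rfl

end Pool.Agent.R855.FP
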