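import Mathlib
import Pool.Agent.R855.FP.Few

/-!
# Collisions of fat points: vanishing
-/

set_option autoImplicit false

namespace Pool.Agent.R855.FP

open Polynomial

variable {K : Type} [Field K]

/-- The polynomials in `x`, `y` of total degree at most `d`: the coefficient of `x ^ i y ^ j` of `g` is
`(g.coeff j).coeff i`. -/
def degLE (K : Type) [Field K] (d : ℕ) : Submodule K K[X][X] where
  carrier := {g | ∀ i j, d < i + j → (g.coeff j).coeff i = 0}
  zero_mem' := fun i j _ => by rw [coeff_zero, coeff_zero]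
  add_mem' := by
    intro a b ha hb i j h
    rw [coeff_add, coeff_add, ha i j h, hb i j h, add_zero]
  smul_mem' := by
    intro c a ha i j h
    rw [coeff_smul, coeff_smul, ha i j h, smul_zero]

/-- The ideal `(y - f (x), x ^ r) ^ m`. -/
noncomputable def fat (f : K[X]) (r m : ℕ) : Ideal K[X][X] :=
  Ideal.span {(X : K[X][X]) - C f, C ((X : K[X]) ^ r)} ^ m

/-- The conditions in the coordinates `x`, `y - f`. -/
def Good (r m : ℕ) (A : K[X][X]) : Prop := ∀ j < m, (X : K[X]) ^ (r * (m - j)) ∣ A.coeff j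

theorem Good.add {r m : ℕ} {A B : K[X][X]} (hA : Good r m A) (hB : Good r m B) :
    Good r m (A + B) := fun j hj => by
  rw [coeff_add]
  exact dvd_add (hA j hj) (hB j hj)

theorem Good.mul {r m : ℕ} {A : K[X][X]} (hA : Good r m A) (P : K[X][X]) :
    Good r m (A * P) := fun j hj => by
  rw [coeff_mul]
  refine Finset.dvd_sum fun p hp => Dvd.dvd.mul_right ?_ _
  have hp' := Finset.HasAntidiagonal.mem_antidiagonal.1 hp
  exact (pow_dvd_pow _ (Nat.mul_le_mul_left r (by omega))).trans (hA p.1 (by omega))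

theorem Good.mul_X {r m : ℕ} {A : K[X][X]} (hA : Good r m A) : Good r (m + 1) (A * X) := by
  intro j hj
  rcases j with _ | j
  · rw [coeff_mul_X_zero]
    exact dvd_zero _
  · rw [coeff_mul_X, Nat.add_sub_add_right]
    exact hA j (by omega)

theorem Good.mul_C {r m : ℕ} {A : K[X][X]} (hA : Good r m A) :
    Good r (m + 1) (A * C ((X : K[X]) ^ r)) := by
  intro j hj
  rw [coeff_mul_C]
  by_cases h : j < m
  · have h1 : r * (m + 1 - j) = r * (m - j) + r := by
      rw [show m + 1 - j = m - j + 1 by omega, Nat.mul_add, Nat.mul_one]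
    rw [h1, pow_add]
    exact mul_dvd_mul (hA j h) (dvd_refl _)
  · have h1 : m + 1 - j = 1 := by omega
    rw [h1, mul_one]
    exact Dvd.dvd.mul_left (dvd_refl _) _

theorem good_of_mem (f : K[X]) (r m : ℕ) : ∀ g ∈ fat f r m, Good r m (taylor f g) := by
  induction m with
  | zero =>
    intro g _ j hj
    exact absurd hj (Nat.not_lt_zero j)
  | succ m ih =>
    intro g hg
    have e : fat f r (m + 1) = fat f r m *
        Ideal.span {(X : K[X][X]) - C f, C ((X : K[X]) ^ r)} := by
      rfl
    rw [e] at hg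
    refine Submodule.mul_induction_on hg ?_ ?_
    · intro a ha b hb
      obtain ⟨p, q, rfl⟩ := Ideal.mem_span_pair.1 hb
      have h1 : taylor f (a * (p * ((X : K[X][X]) - C f) + q * C ((X : K[X]) ^ r))) =
          taylor f a * taylor f p * X + taylor f a * taylor f q * C ((X : K[X]) ^ r) := by
        rw [taylor_mul, map_add, taylor_mul, taylor_mul, map_sub, taylor_X, taylor_C, taylor_C]
        ring
      rw [h1]
      exact (((ih a ha).mul _).mul_X).add (((ih a ha).mul _).mul_C)
    · intro a b ha hb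
      rw [map_add]
      exact ha.add hb

theorem good_succ {r m : ℕ} {f : K[X]} {g' : K[X][X]}
    (h : Good r (m + 1) (taylor f ((X - C f) * g'))) : Good r m (taylor f g') := by
  intro j hj
  have h1 := h (j + 1) (by omega)
  rw [taylor_mul, map_sub, taylor_X, taylor_C, add_sub_cancel_right, coeff_X_mul,
    Nat.add_sub_add_right] at h1
  exact h1

/-- The pairs `(i, j)` with `i < e` and `i + j ≤ d`. -/
def pairs (e d : ℕ) : Finset (Σ _ : ℕ, ℕ) := (Finset.range e).sigma fun i => Finset.range (d + 1 - i)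

theorem mem_pairs {e d : ℕ} {p : Σ _ : ℕ, ℕ} : p ∈ pairs e d ↔ p.1 < e ∧ p.1 + p.2 ≤ d := by
  unfold pairs
  rw [Finset.mem_sigma, Finset.mem_range, Finset.mem_range]
  constructor
  · rintro ⟨h1, h2⟩
    exact ⟨h1, by omega⟩
  · rintro ⟨h1, h2⟩
    exact ⟨h1, by omega⟩

theorem card_pairs (e d : ℕ) : (pairs e d).card = ∑ i ∈ Finset.range e, (d + 1 - i) := by
  unfold pairs
  rw [Finset.card_sigma]
  simp

/-- The monomial `(1 + x) ^ i y ^ j`. -/
noncomputable def mon (K : Type) [Field K] (p : Σ _ : ℕ, ℕ) : K[X][X] :=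
  C ((X + 1 : K[X]) ^ p.1) * X ^ p.2

theorem mon_mem (i j d : ℕ) (h : i + j ≤ d) : mon K ⟨i, j⟩ ∈ degLE K d := by
  intro a b hab
  unfold mon
  rw [coeff_C_mul, coeff_X_pow]
  split_ifs with hb
  · have hb' : b = j := hb
    rw [mul_one]
    apply coeff_eq_zero_of_natDegree_lt
    have h1 : ((X + 1 : K[X]) ^ i).natDegree ≤ i := by
      refine natDegree_pow_le.trans ?_
      have h2 : (X + 1 : K[X]).natDegree ≤ 1 := by
        have h3 : (X + 1 : K[X]) = X + C 1 := by rw [map_one]
        rw [h3, natDegree_X_add_C]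
      exact (Nat.mul_le_mul_left i h2).trans (by omega)
    change ((X + 1 : K[X]) ^ i).natDegree < a
    omega
  · rw [mul_zero, coeff_zero]

/-- The polynomials of degree at most `d` are spanned by the monomials in `1 + x` and `y`. -/
theorem degLE_le_span (d : ℕ) : degLE K d ≤
    Submodule.span K {g | ∃ i j, i + j ≤ d ∧ g = mon K ⟨i, j⟩} := by
  intro g hg
  have h1 : g.natDegree < d + 1 := by
    rw [Nat.lt_succ_iff, natDegree_le_iff_coeff_eq_zero]
    intro j hj
    ext i
    rw [coeff_zero]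
    exact hg i j (by omega)
  rw [g.as_sum_range' (d + 1) h1]
  refine Submodule.sum_mem _ fun j hj => ?_
  rw [Finset.mem_range] at hj
  have h2 : (taylor (-1 : K) (g.coeff j)).natDegree < d - j + 1 := by
    rw [natDegree_taylor, Nat.lt_succ_iff, natDegree_le_iff_coeff_eq_zero]
    intro i hi
    exact hg i j (by omega)
  have h3 : g.coeff j = ∑ i ∈ Finset.range (d - j + 1),
      (taylor (-1 : K) (g.coeff j)).coeff i • (X + 1 : K[X]) ^ i := by
    have h4 := sum_taylor_eq (g.coeff j) (-1 : K)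
    rw [Polynomial.sum_over_range' _ (fun n => by rw [map_zero, zero_mul]) _ h2] at h4
    refine h4.symm.trans (Finset.sum_congr rfl fun i _ => ?_)
    rw [map_neg, sub_neg_eq_add, map_one, smul_eq_C_mul]
  rw [← C_mul_X_pow_eq_monomial, h3, map_sum, Finset.sum_mul]
  refine Submodule.sum_mem _ fun i hi => ?_
  rw [Finset.mem_range] at hi
  have h5 : C ((taylor (-1 : K) (g.coeff j)).coeff i • (X + 1 : K[X]) ^ i) * X ^ j =
      (taylor (-1 : K) (g.coeff j)).coeff i • mon K ⟨i, j⟩ := by
    unfold mon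
    ext n : 1
    rw [coeff_smul, coeff_C_mul, coeff_C_mul, smul_mul_assoc]
  rw [h5]
  exact Submodule.smul_mem _ _ (Submodule.subset_span ⟨i, j, by omega, rfl⟩)

/-- Division by `y - f`, for `f = (1 + x) ^ e`. -/
theorem exists_div {e : ℕ} (he : 1 ≤ e) (d : ℕ) : ∀ g ∈ degLE K d,
    ∃ h ∈ Submodule.span K (mon K '' (pairs e d : Set (Σ _ : ℕ, ℕ))), ∃ g' : K[X][X],
      (e ≤ d → g' ∈ degLE K (d - e)) ∧ (d < e → g' = 0) ∧
      g = h + (X - C ((X + 1 : K[X]) ^ e)) * g' := by
  intro g hg
  refine Submodule.span_induction (p := fun g _ =>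
    ∃ h ∈ Submodule.span K (mon K '' (pairs e d : Set (Σ _ : ℕ, ℕ))), ∃ g' : K[X][X],
      (e ≤ d → g' ∈ degLE K (d - e)) ∧ (d < e → g' = 0) ∧
      g = h + (X - C ((X + 1 : K[X]) ^ e)) * g') ?_ ?_ ?_ ?_ (degLE_le_span d hg)
  · rintro _ ⟨i, j, hij, rfl⟩
    induction i using Nat.strong_induction_on generalizing j with
    | _ i ih =>
      by_cases hi : i < e
      · refine ⟨mon K ⟨i, j⟩, Submodule.subset_span ⟨⟨i, j⟩, ?_, rfl⟩, 0, fun _ =>
          Submodule.zero_mem _, fun _ => rfl, by rw [mul_zero, add_zero]⟩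
        exact Finset.mem_coe.2 (mem_pairs.2 ⟨hi, hij⟩)
      · obtain ⟨h, hh, g', h1, h2, h3⟩ := ih (i - e) (by omega) (j + 1) (by omega)
        refine ⟨h, hh, g' - mon K ⟨i - e, j⟩, fun hed => ?_, fun hde => by omega, ?_⟩
        · exact Submodule.sub_mem _ (h1 hed) (mon_mem _ _ _ (by omega))
        · have h4 : mon K ⟨i, j⟩ = mon K ⟨i - e, j + 1⟩ -
              (X - C ((X + 1 : K[X]) ^ e)) * mon K ⟨i - e, j⟩ := by
            unfold mon
            have h5 : (X + 1 : K[X]) ^ i = (X + 1) ^ (i - e) * (X + 1) ^ e := by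
              rw [← pow_add]
              congr 1
              omega
            change C ((X + 1 : K[X]) ^ i) * X ^ j = C ((X + 1 : K[X]) ^ (i - e)) * X ^ (j + 1) -
              (X - C ((X + 1 : K[X]) ^ e)) * (C ((X + 1 : K[X]) ^ (i - e)) * X ^ j)
            rw [h5, map_mul]
            ring
          rw [h4, h3]
          ring
  · exact ⟨0, Submodule.zero_mem _, 0, fun _ => Submodule.zero_mem _, fun _ => rfl, by
      rw [mul_zero, add_zero]⟩
  · rintro a b - - ⟨h, hh, g', h1, h2, rfl⟩ ⟨k, hk, k', h4, h5, rfl⟩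
    refine ⟨h + k, Submodule.add_mem _ hh hk, g' + k', fun hed => Submodule.add_mem _ (h1 hed)
      (h4 hed), fun hde => by rw [h2 hde, h5 hde, add_zero], by ring⟩
  · rintro c a - ⟨h, hh, g', h1, h2, rfl⟩
    refine ⟨c • h, Submodule.smul_mem _ _ hh, c • g', fun hed => Submodule.smul_mem _ _ (h1 hed),
      fun hde => by rw [h2 hde, smul_zero], by rw [smul_add, mul_smul_comm]⟩

theorem pair_inj {e : ℕ} {p q : Σ _ : ℕ, ℕ} (hp : p.1 < e) (hq : q.1 < e)
    (h : p.1 + e * p.2 = q.1 + e * q.2) : p = q := by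
  have he : 0 < e := by omega
  have h1 : p.2 = q.2 := by
    have h2 := congrArg (· / e) h
    simp only [Nat.add_mul_div_left _ _ he, Nat.div_eq_of_lt hp, Nat.div_eq_of_lt hq,
      Nat.zero_add] at h2
    exact h2
  have h3 : p.1 = q.1 := by rw [h1] at h; omega
  obtain ⟨a, b⟩ := p
  obtain ⟨c, d⟩ := q
  simp only at h1 h3
  rw [h1, h3]

/-- A combination of the monomials `(1 + x) ^ i y ^ j`, `i < e`, which vanishes on the curve
`y = (1 + x) ^ e` to an order at least the number of the monomials is zero. -/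
theorem span_zero [CharZero K] {e d R : ℕ} (hR : (pairs e d).card ≤ R) {h : K[X][X]}
    (hh : h ∈ Submodule.span K (mon K '' (pairs e d : Set (Σ _ : ℕ, ℕ))))
    (hd : (X : K[X]) ^ R ∣ h.eval ((X + 1 : K[X]) ^ e)) : h = 0 := by
  classical
  obtain ⟨c₀, hc₀⟩ := (Submodule.mem_span_image_finset_iff_exists_fun K).1 hh
  obtain ⟨c, hc⟩ : ∃ c : (Σ _ : ℕ, ℕ) → K, ∀ p : pairs e d, c p = c₀ p :=
    ⟨fun p => if hp : p ∈ pairs e d then c₀ ⟨p, hp⟩ else 0, fun p => dif_pos p.2⟩
  have hc' : h = ∑ p ∈ pairs e d, c p • mon K p := by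
    rw [← hc₀, ← Finset.sum_coe_sort (pairs e d) (fun p => c p • mon K p)]
    exact Finset.sum_congr rfl fun p _ => by rw [hc]
  subst hc'
  clear hh hc₀
  let P : K[X] := ∑ p ∈ pairs e d, monomial (p.1 + e * p.2) (c p)
  have h1 : (∑ p ∈ pairs e d, c p • mon K p).eval ((X + 1 : K[X]) ^ e) = P.comp (X + 1) := by
    rw [eval_finsetSum, Polynomial.sum_comp]
    refine Finset.sum_congr rfl fun p _ => ?_
    unfold mon
    rw [monomial_comp, eval_smul, eval_mul, eval_C, eval_pow, eval_X, smul_eq_C_mul, pow_add,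
      pow_mul]
  have h2 : (X - 1 : K[X]) ^ (pairs e d).card ∣ P := by
    rw [h1] at hd
    obtain ⟨S, hS⟩ := (pow_dvd_pow _ hR).trans hd
    have h3 := congrArg (fun F : K[X] => F.comp (X - 1)) hS
    simp only [comp_assoc, mul_comp, X_pow_comp, add_comp, X_comp, one_comp,
      sub_add_cancel, comp_X] at h3
    rw [h3]
    exact dvd_mul_right _ _
  have h3 : P.support.card ≤ (pairs e d).card := by
    have h4 : P.support ⊆ (pairs e d).image fun p => p.1 + e * p.2 := by
      intro n hn
      rw [mem_support_iff, finsetSum_coeff] at hn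
      obtain ⟨p, hp, hne⟩ := Finset.exists_ne_zero_of_sum_ne_zero hn
      rw [coeff_monomial] at hne
      refine Finset.mem_image.2 ⟨p, hp, ?_⟩
      by_contra h5
      rw [if_neg h5] at hne
      exact hne rfl
    exact (Finset.card_le_card h4).trans Finset.card_image_le
  have h4 := eq_zero_of_few _ P h3 h2
  refine Finset.sum_eq_zero fun p hp => ?_
  have h5 : P.coeff (p.1 + e * p.2) = c p := by
    rw [finsetSum_coeff, Finset.sum_eq_single p]
    · rw [coeff_monomial, if_pos rfl]
    · intro q hq hqp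
      rw [coeff_monomial, if_neg]
      intro h6
      exact hqp (pair_inj (mem_pairs.1 hq).1 (mem_pairs.1 hp).1 h6)
    · intro h6
      exact absurd hp h6
  rw [h4, coeff_zero] at h5
  rw [← h5, zero_smul]

/-- **Vanishing.** -/
theorem vanish [CharZero K] {e r : ℕ} (he : 1 ≤ e) : ∀ (m d : ℕ) (g : K[X][X]), g ∈ degLE K d →
    Good r m (taylor ((X + 1 : K[X]) ^ e) g) → d < m * e →
    (∀ i < m, i * e ≤ d → (pairs e (d - i * e)).card ≤ r * (m - i)) → g = 0 := by
  intro m
  induction m with
  | zero =>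
    intro d g _ _ hd _
    omega
  | succ m ih =>
    intro d g hg hgood hd hN
    obtain ⟨h, hh, g', h1, h2, h3⟩ := exists_div he d g hg
    have h4 : h = 0 := by
      refine span_zero (R := r * (m + 1)) ?_ hh ?_
      · have h5 := hN 0 (by omega) (by omega)
        simpa using h5
      · have h5 := hgood 0 (by omega)
        rw [taylor_coeff_zero, h3, eval_add, eval_mul, eval_sub, eval_X, eval_C, sub_self,
          zero_mul, add_zero, Nat.sub_zero] at h5
        exact h5
    rw [h4, zero_add] at h3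
    by_cases hed : e ≤ d
    · rw [h3] at hgood
      have h5 := ih (d - e) g' (h1 hed) (good_succ hgood) (by
        rw [Nat.succ_mul] at hd
        omega) (fun i hi hid => by
        have h6 := hN (i + 1) (by omega) (by rw [Nat.succ_mul]; omega)
        rw [Nat.succ_mul, Nat.add_sub_add_right] at h6
        rwa [show d - e - i * e = d - (i * e + e) by omega])
      rw [h3, h5, mul_zero]
    · rw [h3, h2 (by omega), mul_zero]

end Pool.Agent.R855.FP
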