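import Mathlib
import Pool.Agent.R855.FP.Van

/-!
# Collisions of fat points: general schemes
-/

set_option autoImplicit false

namespace Pool.Agent.R855.FP

open Polynomial Matrix

variable {K : Type} [Field K]

section lin

variable {ι κ σ : Type} [Fintype ι] [Fintype κ] [DecidableEq ι] [DecidableEq κ]

theorem gen_inj (M : Matrix ι κ (MvPolynomial σ K)) (c₀ : σ → K)
    (h : ∀ v, (M.map (MvPolynomial.eval c₀)) *ᵥ v = 0 → v = 0) :
    ∃ P : MvPolynomial σ K, P ≠ 0 ∧ ∀ c, MvPolynomial.eval c P ≠ 0 →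
      ∀ v, (M.map (MvPolynomial.eval c)) *ᵥ v = 0 → v = 0 := by
  have hinj : LinearMap.ker (Matrix.toLin' (M.map (MvPolynomial.eval c₀))) = ⊥ := by
    rw [LinearMap.ker_eq_bot']
    intro v hv
    exact h v (by rwa [Matrix.toLin'_apply] at hv)
  obtain ⟨g, hg⟩ := LinearMap.exists_leftInverse_of_injective _ hinj
  obtain ⟨L, hL⟩ : ∃ L, L = LinearMap.toMatrix' g := ⟨_, rfl⟩
  have h1 : L * M.map (MvPolynomial.eval c₀) = 1 := by
    rw [hL, ← LinearMap.toMatrix'_toLin' (M.map (MvPolynomial.eval c₀)),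
      ← LinearMap.toMatrix'_comp, hg, LinearMap.toMatrix'_id]
  obtain ⟨A, hA⟩ : ∃ A : Matrix κ κ (MvPolynomial σ K),
      A = (L.map MvPolynomial.C : Matrix κ ι (MvPolynomial σ K)) * M := ⟨_, rfl⟩
  have h2 : ∀ c, MvPolynomial.eval c A.det = (L * M.map (MvPolynomial.eval c)).det := by
    intro c
    rw [RingHom.map_det]
    congr 1
    ext i j
    rw [hA]
    simp [Matrix.mul_apply, map_sum]
  refine ⟨A.det, ?_, ?_⟩
  · intro h0
    have h3 := h2 c₀
    rw [h0, map_zero, h1, Matrix.det_one] at h3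
    exact zero_ne_one h3
  · intro c hc v hv
    rw [h2] at hc
    refine Matrix.eq_zero_of_mulVec_eq_zero hc ?_
    rw [← Matrix.mulVec_mulVec, hv, Matrix.mulVec_zero]

theorem gen_surj (M : Matrix ι κ (MvPolynomial σ K)) (c₀ : σ → K)
    (h : Function.Surjective fun v => (M.map (MvPolynomial.eval c₀)) *ᵥ v) :
    ∃ P : MvPolynomial σ K, P ≠ 0 ∧ ∀ c, MvPolynomial.eval c P ≠ 0 →
      Function.Surjective fun v => (M.map (MvPolynomial.eval c)) *ᵥ v := by
  have hs : LinearMap.range (Matrix.toLin' (M.map (MvPolynomial.eval c₀))) = ⊤ := by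
    rw [LinearMap.range_eq_top]
    exact h
  obtain ⟨g, hg⟩ := LinearMap.exists_rightInverse_of_surjective _ hs
  obtain ⟨L, hL⟩ : ∃ L, L = LinearMap.toMatrix' g := ⟨_, rfl⟩
  have h1 : M.map (MvPolynomial.eval c₀) * L = 1 := by
    rw [hL, ← LinearMap.toMatrix'_toLin' (M.map (MvPolynomial.eval c₀)),
      ← LinearMap.toMatrix'_comp, hg, LinearMap.toMatrix'_id]
  obtain ⟨A, hA⟩ : ∃ A : Matrix ι ι (MvPolynomial σ K),
      A = M * (L.map MvPolynomial.C : Matrix κ ι (MvPolynomial σ K)) := ⟨_, rfl⟩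
  have h2 : ∀ c, MvPolynomial.eval c A.det = (M.map (MvPolynomial.eval c) * L).det := by
    intro c
    rw [RingHom.map_det]
    congr 1
    ext i j
    rw [hA]
    simp [Matrix.mul_apply, map_sum]
  refine ⟨A.det, ?_, ?_⟩
  · intro h0
    have h3 := h2 c₀
    rw [h0, map_zero, h1, Matrix.det_one] at h3
    exact zero_ne_one h3
  · intro c hc w
    rw [h2] at hc
    refine ⟨L *ᵥ ((M.map (MvPolynomial.eval c) * L)⁻¹ *ᵥ w), ?_⟩
    change _ *ᵥ _ = w
    rw [Matrix.mulVec_mulVec, Matrix.mulVec_mulVec, Matrix.mul_nonsing_inv _ (Ne.isUnit hc),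
      Matrix.one_mulVec]

end lin

/-- The polynomial with the coefficients `c`. -/
noncomputable def poly {R : Type} [CommRing R] {r : ℕ} (c : Fin r → R) : R[X] :=
  ∑ n, C (c n) * X ^ (n : ℕ)

/-- The matrix of the conditions: the coefficient of `x ^ t (y - f) ^ j` in the monomial
`x ^ a y ^ b`. -/
noncomputable def mat {R : Type} [CommRing R] {r : ℕ} (c : Fin r → R) (m d : ℕ) :
    Matrix (Σ j : Fin m, Fin (r * (m - j))) (pairs (d + 1) d) R :=
  Matrix.of fun q p => (X ^ p.1.1 * (poly c ^ (p.1.2 - q.1) * (p.1.2.choose q.1 : R[X]))).coeff q.2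

theorem mat_map {r : ℕ} (c : Fin r → K) (m d : ℕ) :
    (mat (fun n => (MvPolynomial.X n : MvPolynomial (Fin r) K)) m d).map (MvPolynomial.eval c) =
      mat c m d := by
  ext q p
  unfold mat
  rw [Matrix.map_apply, Matrix.of_apply, Matrix.of_apply, ← coeff_map]
  congr 1
  have h1 : (poly fun n => (MvPolynomial.X n : MvPolynomial (Fin r) K)).map
      (MvPolynomial.eval c) = poly c := by
    unfold poly
    rw [Polynomial.map_sum]
    refine Finset.sum_congr rfl fun n _ => ?_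
    rw [Polynomial.map_mul, Polynomial.map_pow, map_C, map_X, MvPolynomial.eval_X]
  rw [Polynomial.map_mul, Polynomial.map_mul, Polynomial.map_pow, Polynomial.map_pow, map_X, h1,
    Polynomial.map_natCast]

/-- The polynomial with given coefficients. -/
noncomputable def ofVec {d : ℕ} (v : pairs (d + 1) d → K) : K[X][X] :=
  ∑ p, C (C (v p) * X ^ p.1.1) * X ^ p.1.2

theorem mulVec_mat {r : ℕ} (c : Fin r → K) (m d : ℕ) (v : pairs (d + 1) d → K)
    (q : Σ j : Fin m, Fin (r * (m - j))) :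
    (mat c m d *ᵥ v) q = ((taylor (poly c) (ofVec v)).coeff q.1).coeff q.2 := by
  unfold ofVec
  rw [map_sum, finsetSum_coeff, finsetSum_coeff, Matrix.mulVec, dotProduct]
  refine Finset.sum_congr rfl fun p _ => ?_
  rw [taylor_mul, taylor_C, taylor_pow, taylor_X, coeff_C_mul, coeff_X_add_C_pow, mul_assoc,
    coeff_C_mul, mul_comm]
  rfl

theorem coeff_ofVec {d : ℕ} (v : pairs (d + 1) d → K) (i j : ℕ) (h : i + j ≤ d) :
    ((ofVec v).coeff j).coeff i = v ⟨⟨i, j⟩, mem_pairs.2 ⟨by change i < d + 1; omega, h⟩⟩ := by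
  classical
  unfold ofVec
  rw [finsetSum_coeff, finsetSum_coeff, Finset.sum_eq_single ⟨⟨i, j⟩, mem_pairs.2
    ⟨by change i < d + 1; omega, h⟩⟩]
  · rw [coeff_C_mul, coeff_X_pow, if_pos rfl, mul_one, coeff_C_mul, coeff_X_pow, if_pos rfl,
      mul_one]
  · rintro ⟨⟨a, b⟩, hab⟩ - hne
    rw [coeff_C_mul, coeff_X_pow]
    split_ifs with hb
    · rw [mul_one, coeff_C_mul, coeff_X_pow]
      split_ifs with ha
      · exfalso
        apply hne
        apply Subtype.ext
        change (⟨a, b⟩ : Σ _ : ℕ, ℕ) = ⟨i, j⟩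
        have hb' : j = b := hb
        have ha' : i = a := ha
        rw [ha', hb']
      · rw [mul_zero]
    · rw [mul_zero, coeff_zero]
  · intro h
    exact absurd (Finset.mem_univ _) h

theorem ofVec_mem {d : ℕ} (v : pairs (d + 1) d → K) : ofVec v ∈ degLE K d := by
  refine Submodule.sum_mem _ fun p _ => ?_
  intro i j hij
  have hp := mem_pairs.1 p.2
  rw [coeff_C_mul, coeff_X_pow]
  split_ifs with hb
  · rw [mul_one, coeff_C_mul, coeff_X_pow, if_neg, mul_zero]
    omega
  · rw [mul_zero, coeff_zero]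

theorem ofVec_coeff {d : ℕ} {g : K[X][X]} (hg : g ∈ degLE K d) :
    ofVec (fun p : pairs (d + 1) d => (g.coeff p.1.2).coeff p.1.1) = g := by
  ext j i
  by_cases h : i + j ≤ d
  · rw [coeff_ofVec _ i j h]
  · rw [ofVec_mem _ i j (by omega), hg i j (by omega)]

theorem good_iff {r : ℕ} (m : ℕ) (A : K[X][X]) :
    Good r m A ↔ ∀ q : Σ j : Fin m, Fin (r * (m - j)), (A.coeff q.1).coeff q.2 = 0 := by
  constructor
  · rintro h ⟨j, t⟩
    have h1 := h j j.2
    rw [X_pow_dvd_iff] at h1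
    exact h1 t t.2
  · intro h j hj
    rw [X_pow_dvd_iff]
    intro t ht
    exact h ⟨⟨j, hj⟩, ⟨t, ht⟩⟩

theorem poly_choose (e r : ℕ) (her : e < r) :
    poly (fun n : Fin r => ((e.choose n : ℕ) : K)) = (X + 1 : K[X]) ^ e := by
  ext t
  unfold poly
  rw [finsetSum_coeff, Polynomial.coeff_X_add_one_pow]
  by_cases ht : t < r
  · rw [Finset.sum_eq_single ⟨t, ht⟩]
    · rw [coeff_C_mul, coeff_X_pow, if_pos rfl, mul_one]
    · intro n _ hn
      rw [coeff_C_mul, coeff_X_pow, if_neg, mul_zero]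
      intro h
      exact hn (Fin.ext h.symm)
    · intro h
      exact absurd (Finset.mem_univ _) h
  · rw [Nat.choose_eq_zero_of_lt (by omega), Nat.cast_zero]
    refine Finset.sum_eq_zero fun n _ => ?_
    rw [coeff_C_mul, coeff_X_pow, if_neg, mul_zero]
    omega

/-- **Vanishing for general schemes.** -/
theorem gen_vanish [CharZero K] {e r m d : ℕ} (he : 1 ≤ e) (her : e < r) (hd : d < m * e)
    (hN : ∀ i < m, i * e ≤ d → (pairs e (d - i * e)).card ≤ r * (m - i)) :
    ∃ P : MvPolynomial (Fin r) K, P ≠ 0 ∧ ∀ c, MvPolynomial.eval c P ≠ 0 →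
      ∀ g ∈ degLE K d, g ∈ fat (poly c) r m → g = 0 := by
  obtain ⟨P, hP0, hP⟩ := gen_inj (mat (fun n => (MvPolynomial.X n : MvPolynomial (Fin r) K)) m d)
    (fun n : Fin r => ((e.choose n : ℕ) : K)) (fun v hv => by
      rw [mat_map] at hv
      have h1 : ofVec v = 0 := by
        refine vanish he m d _ (ofVec_mem v) ?_ hd hN
        rw [good_iff]
        intro q
        rw [← poly_choose e r her, ← mulVec_mat, hv]
        rfl
      funext p
      have h2 := coeff_ofVec v p.1.1 p.1.2 (mem_pairs.1 p.2).2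
      rw [h1, coeff_zero, coeff_zero] at h2
      exact h2.symm)
  refine ⟨P, hP0, fun c hc g hg hgf => ?_⟩
  have h1 := good_of_mem (poly c) r m g hgf
  rw [← ofVec_coeff hg] at h1 ⊢
  have h2 := hP c hc (fun p : pairs (d + 1) d => (g.coeff p.1.2).coeff p.1.1) (by
    rw [mat_map]
    funext q
    rw [mulVec_mat]
    exact (good_iff m _).1 h1 q)
  rw [h2]
  unfold ofVec
  refine Finset.sum_eq_zero fun p _ => ?_
  simp

end Pool.Agent.R855.FP
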