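import Mathlib
import Pool.Agent.R855.FP.Gen

/-!
# Collisions of fat points: the numbers
-/

set_option autoImplicit false

namespace Pool.Agent.R855.FP

theorem sum_ge (e u : ℕ) (h : e ≤ u) :
    2 * ∑ i ∈ Finset.range e, (u - i) + e * (e - 1) = 2 * e * u := by
  induction e with
  | zero => simp
  | succ e ih =>
    rw [Finset.sum_range_succ, Nat.mul_add]
    have h1 := ih (by omega)
    obtain ⟨w, rfl⟩ : ∃ w, u = e + w := ⟨u - e, by omega⟩
    rw [Nat.add_sub_cancel_left, Nat.add_sub_cancel]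
    rcases e with _ | e
    · simp at h1 ⊢
    · rw [Nat.add_sub_cancel] at h1
      nlinarith [h1]

theorem sum_le (e u : ℕ) (h : u ≤ e) :
    2 * ∑ i ∈ Finset.range e, (u - i) = u * (u + 1) := by
  induction e with
  | zero =>
    obtain rfl : u = 0 := by omega
    simp
  | succ e ih =>
    rw [Finset.sum_range_succ, Nat.mul_add]
    by_cases h1 : u ≤ e
    · rw [ih h1, Nat.sub_eq_zero_of_le h1]
      omega
    · obtain rfl : u = e + 1 := by omega
      have h2 := sum_ge e (e + 1) (by omega)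
      rw [Nat.add_sub_cancel_left]
      rcases e with _ | e
      · simp
      · rw [Nat.add_sub_cancel] at h2
        nlinarith [h2]

/-- The condition with one curve of degree `e`. -/
theorem num_three {r m d e : ℕ} (h1 : r ≤ e ^ 2) (h2 : e * (e - 1) ≤ 2 * r)
    (h3 : 2 * e * (d + 1) ≤ 2 * r * m + e * (e - 1)) :
    ∀ i < m, i * e ≤ d → (pairs e (d - i * e)).card ≤ r * (m - i) := by
  intro i hi hid
  rw [card_pairs]
  obtain ⟨t, rfl⟩ : ∃ t, m = i + t := ⟨m - i, by omega⟩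
  obtain ⟨u, hu⟩ : ∃ u, u = d - i * e + 1 := ⟨_, rfl⟩
  rw [← hu, Nat.add_sub_cancel_left]
  have ht : 1 ≤ t := by omega
  have hd : d = i * e + u - 1 := by omega
  by_cases hue : e ≤ u
  · have h4 := sum_ge e u hue
    have h5 : d + 1 = i * e + u := by omega
    rw [h5] at h3
    nlinarith [h3, h4, Nat.mul_le_mul_left i h1]
  · have h4 := sum_le e u (by omega)
    have h5 : u * (u + 1) ≤ (e - 1) * e := Nat.mul_le_mul (by omega) (by omega)
    have h6 : (e - 1) * e = e * (e - 1) := Nat.mul_comm _ _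
    have h7 : r * 1 ≤ r * t := Nat.mul_le_mul_left r ht
    omega

theorem num_one {r m d e : ℕ} (h1 : e ^ 2 ≤ r) (h2 : d < m * e) :
    ∀ i < m, i * e ≤ d → (pairs e (d - i * e)).card ≤ r * (m - i) := by
  intro i hi hid
  rw [card_pairs]
  obtain ⟨t, rfl⟩ : ∃ t, m = i + t := ⟨m - i, by omega⟩
  obtain ⟨u, hu⟩ : ∃ u, u = d - i * e + 1 := ⟨_, rfl⟩
  rw [← hu, Nat.add_sub_cancel_left]
  have ht : 1 ≤ t := by omega
  have h3 : u ≤ t * e := by
    rw [Nat.add_mul] at h2
    omega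
  have h4 : ∑ i ∈ Finset.range e, (u - i) ≤ e * u := by
    calc ∑ i ∈ Finset.range e, (u - i) ≤ ∑ i ∈ Finset.range e, u :=
        Finset.sum_le_sum fun i _ => Nat.sub_le _ _
      _ = e * u := by rw [Finset.sum_const, Finset.card_range, smul_eq_mul]
  nlinarith [h4, Nat.mul_le_mul_left e h3, Nat.mul_le_mul_right t h1]

theorem num_two {r m d : ℕ} (hm : 1 ≤ m) (h1 : 4 * (m + 1) ^ 2 ≤ r) (h2 : d ^ 2 ≤ r * m ^ 2) :
    r ≤ (Nat.sqrt r + 1) ^ 2 ∧ (Nat.sqrt r + 1) * (Nat.sqrt r + 1 - 1) ≤ 2 * r ∧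
      d < m * (Nat.sqrt r + 1) ∧ 2 * (Nat.sqrt r + 1) * (d + 1) ≤
        2 * r * m + (Nat.sqrt r + 1) * (Nat.sqrt r + 1 - 1) := by
  obtain ⟨s, hs⟩ : ∃ s, s = Nat.sqrt r := ⟨_, rfl⟩
  rw [← hs, Nat.add_sub_cancel]
  have hs1 : s * s ≤ r := by rw [hs]; exact Nat.sqrt_le r
  have hs2 : r < (s + 1) * (s + 1) := by rw [hs]; exact Nat.lt_succ_sqrt r
  have hs3 : 2 * m + 2 ≤ s := by
    rw [hs, Nat.le_sqrt]
    nlinarith [h1]
  have hd : d < m * (s + 1) := by
    by_contra hcon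
    push Not at hcon
    have h3 := Nat.mul_le_mul hcon hcon
    have h4 : r * m ^ 2 < (m * (s + 1)) * (m * (s + 1)) := by
      have h5 : (m * (s + 1)) * (m * (s + 1)) = ((s + 1) * (s + 1)) * m ^ 2 := by ring
      rw [h5]
      exact Nat.mul_lt_mul_of_pos_right hs2 (by positivity)
    have h5 : d ^ 2 = d * d := by ring
    omega
  refine ⟨by nlinarith, by nlinarith, hd, ?_⟩
  -- `(s + 1) d ≤ r m + m (s + 1)`
  have key : (s + 1) * d ≤ r * m + m * (s + 1) := by
    by_cases hds : d < m * s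
    · have h3 : s * d ≤ s * (m * s) := Nat.mul_le_mul_left s hds.le
      have h4 : s * (m * s) = m * (s * s) := by ring
      have h5 : m * (s * s) ≤ m * r := Nat.mul_le_mul_left m hs1
      nlinarith
    · obtain ⟨t, rfl⟩ : ∃ t, d = m * s + t := ⟨d - m * s, by omega⟩
      have ht : t < m := by
        rw [Nat.mul_add] at hd
        omega
      have h3 : m * (m * (s * s) + 2 * (s * t)) ≤ m * (r * m) := by nlinarith
      have h4 : m * (s * s) + 2 * (s * t) ≤ r * m := Nat.le_of_mul_le_mul_left h3 (by omega)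
      nlinarith
  nlinarith [key, Nat.mul_le_mul_left (s + 1) hs3]

end Pool.Agent.R855.FP
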